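import Mathlib

set_option autoImplicit false

open scoped InnerProductSpace ComplexOrder

universe u v

namespace Pool.Agent.MP_0a86e9_an

/-- A map between ordered sets is normal if it preserves suprema of increasing nets: if `D` is a
nonempty upward directed set with supremum `a`, then `φ a` is the supremum of `φ '' D`. -/
def IsNormalMap {α : Type u} {β : Type v} [PartialOrder α] [PartialOrder β] (φ : α → β) : Prop :=
  ∀ (D : Set α) (a : α), D.Nonempty → DirectedOn (fun x y => x ≤ y) D → IsLUB D a →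
    IsLUB (φ '' D) (φ a)

section

variable {H : Type u} [NormedAddCommGroup H] [InnerProductSpace ℂ H] [CompleteSpace H]

/-- `φ` is (the function underlying) a completely positive linear map of `B(H)`. -/
def IsCP (φ : (H →L[ℂ] H) → (H →L[ℂ] H)) : Prop :=
  ∃ Φ : CompletelyPositiveMap (H →L[ℂ] H) (H →L[ℂ] H), ∀ a, Φ a = φ a

/-- The semigroup over `ℕ^3` given by three maps on `B(H)`:
`T_s = T_1 ^ s_1 ∘ T_2 ^ s_2 ∘ T_3 ^ s_3`. -/
def semigroup (T : Fin 3 → (H →L[ℂ] H) → (H →L[ℂ] H)) (s : Fin 3 → ℕ) (a : H →L[ℂ] H) :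
    H →L[ℂ] H :=
  (T 0)^[s 0] ((T 1)^[s 1] ((T 2)^[s 2] a))

variable {K : Type v} [NormedAddCommGroup K] [InnerProductSpace ℂ K] [CompleteSpace K]

/-- For an isometric inclusion `V` of `H` in `K`: the operator `b` on `K` is the operator `a` on
`H`, extended by `0` on the orthogonal complement of `H`, that is `b = V a V*`. In particular
`IsExt V 1 p` says that `p` is the orthogonal projection of `K` onto `H`. -/
def IsExt (V : H →ₗᵢ[ℂ] K) (a : H →L[ℂ] H) (b : K →L[ℂ] K) : Prop :=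
  (∀ x : H, b (V x) = V (a x)) ∧ (∀ y : K, (∀ x : H, ⟪V x, y⟫_ℂ = 0) → b y = 0)

/-- `θ` is (on `B`) a `*`-endomorphism of the von Neumann algebra `B`, not necessarily unital. -/
structure IsStarEndo (B : VonNeumannAlgebra K) (θ : (K →L[ℂ] K) → (K →L[ℂ] K)) : Prop where
  mem : ∀ b ∈ B, θ b ∈ B
  add : ∀ b ∈ B, ∀ c ∈ B, θ (b + c) = θ b + θ c
  smul : ∀ (z : ℂ), ∀ b ∈ B, θ (z • b) = z • θ b
  mul : ∀ b ∈ B, ∀ c ∈ B, θ (b * c) = θ b * θ c
  star : ∀ b ∈ B, θ (star b) = star (θ b)

/-- A dilation `(p, K, B, θ)` of a family `T_s` (`s ∈ ℕ^3`) of maps on `B(H)`: `K ⊇ H` is a Hilbert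
space, `B ⊆ B(K)` is a von Neumann algebra containing the projection `p` of `K` onto `H`, the corner
`p B p` is `B(H)`, and `θ` is a semigroup over `ℕ^3` of `*`-endomorphisms of `B` (not required to be
unital, and here not even required to be normal) with `T_s(a) = p θ_s(a) p` for all `a ∈ B(H)`. -/
structure Dilation (T : (Fin 3 → ℕ) → (H →L[ℂ] H) → (H →L[ℂ] H))
    (K : Type v) [NormedAddCommGroup K] [InnerProductSpace ℂ K] [CompleteSpace K] where
  /-- the inclusion of `H` in `K` -/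
  V : H →ₗᵢ[ℂ] K
  /-- the von Neumann algebra -/
  B : VonNeumannAlgebra K
  /-- the orthogonal projection of `K` onto `H` -/
  p : K →L[ℂ] K
  /-- the maps `θ_s` -/
  θ : (Fin 3 → ℕ) → (K →L[ℂ] K) → (K →L[ℂ] K)
  p_proj : IsExt V 1 p
  p_mem : p ∈ B
  /-- the corner `p B p` consists of the operators `a` on `H` -/
  corner : ∀ b : K →L[ℂ] K, (∃ c ∈ B, b = p * c * p) ↔ ∃ a, IsExt V a b
  endo : ∀ s, IsStarEndo B (θ s)
  θ_zero : ∀ b ∈ B, θ (fun _ => 0) b = b
  θ_add : ∀ s t, ∀ b ∈ B, θ (fun i => s i + t i) b = θ s (θ t b)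
  /-- `T_s(a) = p θ_s(a) p` -/
  dilates : ∀ (s : Fin 3 → ℕ) (a : H →L[ℂ] H) (b : K →L[ℂ] K),
    IsExt V a b → IsExt V (T s a) (p * θ s b * p)

/-- Three commuting unital normal completely positive maps `T_1, T_2, T_3` on `B(H)` such that the
semigroup `T_s` (`s ∈ ℕ^3`) they generate has no dilation `(p, K, B, θ)` at all, for no Hilbert space
`K` and no von Neumann algebra `B ⊆ B(K)`, minimal or not. -/
structure TripleWithoutDilation (H : Type u) [NormedAddCommGroup H] [InnerProductSpace ℂ H]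
    [CompleteSpace H] where
  /-- the three maps -/
  T : Fin 3 → (H →L[ℂ] H) → (H →L[ℂ] H)
  cp : ∀ i, IsCP (T i)
  normal : ∀ i, IsNormalMap (T i)
  unital : ∀ i, T i 1 = 1
  comm : ∀ i j a, T i (T j a) = T j (T i a)
  no_dilation : ∀ (K : Type v) [NormedAddCommGroup K] [InnerProductSpace ℂ K] [CompleteSpace K],
    IsEmpty (Dilation (semigroup T) K)

end

end Pool.Agent.MP_0a86e9_an
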