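import Mathlib
import Pool.Agent.Lib.MP_0a86e9_an.Defs

set_option autoImplicit false
set_option maxHeartbeats 4000000
set_option linter.unusedSimpArgs false
set_option linter.unusedSectionVars false
set_option linter.deprecated false

open scoped InnerProductSpace ComplexOrder
open ContinuousLinearMap InnerProductSpace

universe u v

namespace Pool.Agent.MP_0a86e9_an

/-! ### The argument for the non-existence of a dilation -/

section Key

variable {H : Type u} [NormedAddCommGroup H] [InnerProductSpace ℂ H] [CompleteSpace H]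
variable {K : Type v} [NormedAddCommGroup K] [InnerProductSpace ℂ K] [CompleteSpace K]

/-- the embedding of an operator on `H` as a corner operator on `K` -/
noncomputable def corner (V : H →ₗᵢ[ℂ] K) (a : H →L[ℂ] H) : K →L[ℂ] K :=
  V.toContinuousLinearMap ∘L a ∘L adjoint V.toContinuousLinearMap

lemma isExt_corner (V : H →ₗᵢ[ℂ] K) (a : H →L[ℂ] H) : IsExt V a (corner V a) := by
  constructor
  · intro x
    have : adjoint V.toContinuousLinearMap (V x) = x := by
      apply ext_inner_left ℂ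
      intro y
      rw [adjoint_inner_right]
      simp
    simp [corner, this]
  · intro y hy
    have : adjoint V.toContinuousLinearMap y = 0 := by
      apply ext_inner_left ℂ
      intro x
      rw [adjoint_inner_right, inner_zero_right]
      exact hy x
    simp [corner, this]

lemma isExt_iff (V : H →ₗᵢ[ℂ] K) (a : H →L[ℂ] H) (b : K →L[ℂ] K) :
    IsExt V a b ↔ b = corner V a := by
  constructor
  · intro h
    ext y
    have h1 : b (y - V (adjoint V.toContinuousLinearMap y)) = 0 := by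
      apply h.2
      intro x
      rw [inner_sub_right, V.inner_map_map, adjoint_inner_right]
      simp
    rw [map_sub, sub_eq_zero] at h1
    rw [h1, h.1]
    simp [corner]
  · rintro rfl
    exact isExt_corner V a

/-- compression of an operator on `K` to `H` -/
noncomputable def cmp (V : H →ₗᵢ[ℂ] K) (b : K →L[ℂ] K) : H →L[ℂ] H :=
  adjoint V.toContinuousLinearMap ∘L b ∘L V.toContinuousLinearMap

lemma adj_comp (V : H →ₗᵢ[ℂ] K) (x : H) :
    adjoint V.toContinuousLinearMap (V x) = x := by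
  apply ext_inner_left ℂ
  intro y
  rw [adjoint_inner_right]
  simp

lemma corner_apply (V : H →ₗᵢ[ℂ] K) (a : H →L[ℂ] H) (x : H) : corner V a (V x) = V (a x) := by
  simp [corner, adj_comp]

lemma corner_mul (V : H →ₗᵢ[ℂ] K) (a c : H →L[ℂ] H) : corner V a * corner V c = corner V (a * c) := by
  ext x
  simp [corner, adj_comp, ContinuousLinearMap.mul_def]

lemma star_corner (V : H →ₗᵢ[ℂ] K) (a : H →L[ℂ] H) : star (corner V a) = corner V (star a) := by
  simp [corner, ContinuousLinearMap.star_eq_adjoint, adjoint_comp, ContinuousLinearMap.comp_assoc]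

lemma corner_one_mul (V : H →ₗᵢ[ℂ] K) (b : K →L[ℂ] K) :
    corner V 1 * b * corner V 1 = corner V (cmp V b) := by
  ext x
  simp [corner, cmp, ContinuousLinearMap.mul_def]

lemma corner_rankOne (V : H →ₗᵢ[ℂ] K) (x y : H) : corner V (rankOne ℂ x y) = rankOne ℂ (V x) (V y) := by
  ext z
  simp [corner, adjoint_inner_right]

lemma inner_cmp (V : H →ₗᵢ[ℂ] K) (b : K →L[ℂ] K) (x y : H) :
    ⟪x, cmp V b y⟫_ℂ = ⟪V x, b (V y)⟫_ℂ := by
  simp [cmp, adjoint_inner_right]

/-- data of one endomorphism of `B` dilating one map `T` -/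
structure Dil (V : H →ₗᵢ[ℂ] K) (B : StarSubalgebra ℂ (K →L[ℂ] K))
    (hB : ∀ a : H →L[ℂ] H, corner V a ∈ B) (θ : B →⋆ₙₐ[ℂ] B)
    (T : (H →L[ℂ] H) → (H →L[ℂ] H)) : Prop where
  one : T 1 = 1
  dil : ∀ a x y, ⟪V x, (θ ⟨corner V a, hB a⟩ : K →L[ℂ] K) (V y)⟫_ℂ = ⟪x, T a y⟫_ℂ

variable {V : H →ₗᵢ[ℂ] K} {B : StarSubalgebra ℂ (K →L[ℂ] K)}
    {hB : ∀ a : H →L[ℂ] H, corner V a ∈ B} {θ : B →⋆ₙₐ[ℂ] B}
    {T : (H →L[ℂ] H) → (H →L[ℂ] H)}

lemma star_coe_inner (b : B) (x y : K) :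
    ⟪(b : K →L[ℂ] K) x, y⟫_ℂ = ⟪x, ((star b : B) : K →L[ℂ] K) y⟫_ℂ := by
  rw [StarMemClass.coe_star, ContinuousLinearMap.star_eq_adjoint, adjoint_inner_right]

lemma Dil.fix (h : Dil V B hB θ T) (x : H) :
    (θ ⟨corner V 1, hB 1⟩ : K →L[ℂ] K) (V x) = V x := by
  set P : B := ⟨corner V 1, hB 1⟩ with hP
  have hPP : P * P = P := by
    apply Subtype.ext
    simp [hP, corner_mul]
  have hPs : star P = P := by
    apply Subtype.ext
    simp [hP, star_corner]
  have h1 : ⟪V x, (θ P : K →L[ℂ] K) (V x)⟫_ℂ = ⟪x, x⟫_ℂ := by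
    rw [h.dil, h.one]; simp
  have h2 : ⟪(θ P : K →L[ℂ] K) (V x), (θ P : K →L[ℂ] K) (V x)⟫_ℂ = ⟪x, x⟫_ℂ := by
    rw [star_coe_inner, ← map_star, hPs, ← ContinuousLinearMap.mul_apply, ← MulMemClass.coe_mul,
      ← map_mul, hPP, h1]
  have h3 : ⟪(θ P : K →L[ℂ] K) (V x), V x⟫_ℂ = ⟪x, x⟫_ℂ := by
    rw [star_coe_inner, ← map_star, hPs, h1]
  have h4 : ⟪(θ P : K →L[ℂ] K) (V x) - V x, (θ P : K →L[ℂ] K) (V x) - V x⟫_ℂ = 0 := by
    rw [inner_sub_left, inner_sub_right, inner_sub_right, h1, h2, h3]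
    simp
  exact sub_eq_zero.mp (inner_self_eq_zero.mp h4)

lemma Dil.strong (h : Dil V B hB θ T) (b : B) (x y : H) :
    ⟪V x, (θ b : K →L[ℂ] K) (V y)⟫_ℂ = ⟪x, T (cmp V b) y⟫_ℂ := by
  set P : B := ⟨corner V 1, hB 1⟩ with hP
  have hPs : star P = P := by
    apply Subtype.ext
    simp [hP, star_corner]
  have e : P * b * P = ⟨corner V (cmp V b), hB _⟩ := by
    apply Subtype.ext
    simp [hP, corner_one_mul]
  rw [← h.dil, ← e, map_mul, map_mul]
  simp only [MulMemClass.coe_mul, ContinuousLinearMap.mul_apply]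
  rw [h.fix, ← hPs, map_star, ← star_coe_inner, h.fix]


/-- rank one operators of the corner -/
noncomputable def k (V : H →ₗᵢ[ℂ] K) (B : StarSubalgebra ℂ (K →L[ℂ] K))
    (hB : ∀ a : H →L[ℂ] H, corner V a ∈ B) (x y : H) : B := ⟨corner V (rankOne ℂ x y), hB _⟩

lemma coe_k (x y : H) : ((k V B hB x y : B) : K →L[ℂ] K) = rankOne ℂ (V x) (V y) := by
  simp [k, corner_rankOne]

lemma star_k (x y : H) : star (k V B hB x y) = k V B hB y x := by
  apply Subtype.ext
  rw [StarMemClass.coe_star, coe_k, coe_k, ContinuousLinearMap.star_eq_adjoint]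
  simp

lemma sandwich (b : B) (x y z w : H) :
    k V B hB x y * b * k V B hB z w = ⟪V y, (b : K →L[ℂ] K) (V z)⟫_ℂ • k V B hB x w := by
  apply Subtype.ext
  rw [MulMemClass.coe_mul, MulMemClass.coe_mul, SetLike.val_smul, coe_k, coe_k, coe_k]
  ext u
  simp [smul_smul, mul_comm]

lemma k_mul (x y z w : H) :
    k V B hB x y * k V B hB z w = ⟪y, z⟫_ℂ • k V B hB x w := by
  have := sandwich (V := V) (B := B) (hB := hB) 1 x y z w
  simpa using this

lemma mul_k_eq {M N : B} {c d z : H}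
    (h : (M : K →L[ℂ] K) (V c) = (N : K →L[ℂ] K) (V d)) :
    M * k V B hB c z = N * k V B hB d z := by
  apply Subtype.ext
  rw [MulMemClass.coe_mul, MulMemClass.coe_mul, coe_k, coe_k]
  ext u
  simp [h]

lemma coe_mul_apply (a b : B) (x : K) :
    ((a * b : B) : K →L[ℂ] K) x = (a : K →L[ℂ] K) ((b : K →L[ℂ] K) x) := rfl

lemma cmp_k (x y : H) : cmp V ((k V B hB x y : B) : K →L[ℂ] K) = rankOne ℂ x y := by
  ext z
  apply ext_inner_left ℂ
  intro w
  rw [inner_cmp, coe_k]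
  simp [inner_smul_right]

lemma Dil.cmp_eq (h : Dil V B hB θ T) (b : B) :
    cmp V ((θ b : B) : K →L[ℂ] K) = T (cmp V b) := by
  ext z
  apply ext_inner_left ℂ
  intro w
  rw [inner_cmp, h.strong]

lemma cmp_k_mul (x y : H) (b : B) :
    cmp V ((k V B hB x y * b : B) : K →L[ℂ] K) = rankOne ℂ x (star (cmp V b) y) := by
  ext z
  apply ext_inner_left ℂ
  intro w
  rw [inner_cmp, coe_mul_apply, coe_k, ContinuousLinearMap.star_eq_adjoint]
  simp only [rankOne_apply, inner_smul_right, adjoint_inner_left, inner_cmp]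
  simp

lemma relA {θi θj : B →⋆ₙₐ[ℂ] B} {Ti Tj : (H →L[ℂ] H) → (H →L[ℂ] H)}
    (hi : Dil V B hB θi Ti) (hj : Dil V B hB θj Tj) (comm : ∀ b, θi (θj b) = θj (θi b))
    {o a c e : H} (x : H) (ho : ⟪o, o⟫_ℂ = 1)
    (h0 : ⟪a, Ti (rankOne ℂ o o) a⟫_ℂ = 1)
    (h1 : star (Ti (rankOne ℂ o o)) a = a)
    (h2 : ⟪c, Tj (rankOne ℂ o o) c⟫_ℂ = 1)
    (h3 : ⟪c, Tj (rankOne ℂ o a) e⟫_ℂ = 1)
    (h4 : ⟪e, Ti (Tj (rankOne ℂ o o)) e⟫_ℂ = 1) :
    θi (θj (k V B hB x o)) * θj (k V B hB a o) * k V B hB c o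
      = θi (θj (k V B hB x o)) * k V B hB e o := by
  apply mul_k_eq
  set Q : B := θi (θj (k V B hB o o)) with hQ
  have hQQ : Q * Q = Q := by
    rw [hQ, ← map_mul, ← map_mul, k_mul, ho, one_smul]
  have hQs : star Q = Q := by
    rw [hQ, ← map_star, ← map_star, star_k]
  have hxQ : θi (θj (k V B hB x o)) = θi (θj (k V B hB x o)) * Q := by
    rw [hQ, ← map_mul, ← map_mul, k_mul, ho, one_smul]
  set u : K := ((θj (k V B hB a o) : B) : K →L[ℂ] K) (V c) with hu
  set v : K := V e with hv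
  -- inner products
  have hQinner : ∀ y z : K, ⟪(Q : K →L[ℂ] K) y, (Q : K →L[ℂ] K) z⟫_ℂ = ⟪y, (Q : K →L[ℂ] K) z⟫_ℂ := by
    intro y z
    rw [star_coe_inner, hQs, ← coe_mul_apply, hQQ]
  have huu : ⟪u, (Q : K →L[ℂ] K) u⟫_ℂ = 1 := by
    rw [hu, star_coe_inner, ← coe_mul_apply, ← coe_mul_apply, ← map_star, star_k, hQ, comm,
      ← map_mul, ← map_mul, sandwich, hi.strong, cmp_k, h0, one_smul, hj.strong, cmp_k, h2]
  have hvv : ⟪v, (Q : K →L[ℂ] K) v⟫_ℂ = 1 := by
    rw [hv, hQ, hi.strong, hj.cmp_eq, cmp_k, h4]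
  have huv : ⟪u, (Q : K →L[ℂ] K) v⟫_ℂ = 1 := by
    rw [hu, star_coe_inner, ← map_star, star_k, ← coe_mul_apply, hQ, comm, ← map_mul, hv,
      hj.strong, cmp_k_mul, hi.cmp_eq, cmp_k, h1, h3]
  have hvu : ⟪v, (Q : K →L[ℂ] K) u⟫_ℂ = 1 := by
    rw [← inner_conj_symm, star_coe_inner, hQs, huv, map_one]
  have key : (Q : K →L[ℂ] K) u = (Q : K →L[ℂ] K) v := by
    rw [← sub_eq_zero, ← inner_self_eq_zero (𝕜 := ℂ), inner_sub_left, inner_sub_right,
      inner_sub_right, hQinner, hQinner, hQinner, hQinner, huu, hvv, huv, hvu]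
    simp
  rw [coe_mul_apply, ← hu, hxQ, coe_mul_apply, coe_mul_apply, key]


/-- from two factorisations through the same vector one gets an exchange relation -/
lemma exch {θi θj : B →⋆ₙₐ[ℂ] B} {Ti Tj : (H →L[ℂ] H) → (H →L[ℂ] H)}
    (hi : Dil V B hB θi Ti) (hj : Dil V B hB θj Tj) (comm : ∀ b, θi (θj b) = θj (θi b))
    {o a c a' c' e : H} (x : H) (ho : ⟪o, o⟫_ℂ = 1)
    (h0 : ⟪a, Ti (rankOne ℂ o o) a⟫_ℂ = 1)
    (h1 : star (Ti (rankOne ℂ o o)) a = a)
    (h2 : ⟪c, Tj (rankOne ℂ o o) c⟫_ℂ = 1)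
    (h3 : ⟪c, Tj (rankOne ℂ o a) e⟫_ℂ = 1)
    (h4 : ⟪e, Ti (Tj (rankOne ℂ o o)) e⟫_ℂ = 1)
    (h0' : ⟪c', Tj (rankOne ℂ o o) c'⟫_ℂ = 1)
    (h1' : star (Tj (rankOne ℂ o o)) c' = c')
    (h2' : ⟪a', Ti (rankOne ℂ o o) a'⟫_ℂ = 1)
    (h3' : ⟪a', Ti (rankOne ℂ o c') e⟫_ℂ = 1)
    (h4' : ⟪e, Tj (Ti (rankOne ℂ o o)) e⟫_ℂ = 1) :
    θi (θj (k V B hB x o)) * θj (k V B hB a o) * k V B hB c o
      = θj (θi (k V B hB x o)) * θi (k V B hB c' o) * k V B hB a' o := by
  rw [relA hi hj comm x ho h0 h1 h2 h3 h4,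
    relA hj hi (fun b => (comm b).symm) x ho h0' h1' h2' h3' h4', comm]

lemma hexagon {θ1 θ2 θ3 : B →⋆ₙₐ[ℂ] B} {T1 T2 T3 : (H →L[ℂ] H) → (H →L[ℂ] H)}
    (d1 : Dil V B hB θ1 T1) (d2 : Dil V B hB θ2 T2) (d3 : Dil V B hB θ3 T3)
    (c12 : ∀ b, θ1 (θ2 b) = θ2 (θ1 b)) (c13 : ∀ b, θ1 (θ3 b) = θ3 (θ1 b))
    (c23 : ∀ b, θ2 (θ3 b) = θ3 (θ2 b))
    {o e1 e2 t1 t2 : H} (no : ‖o‖ = 1)
    (n11 : ‖e1‖ = 1) (n22 : ‖e2‖ = 1)
    (n12 : ⟪e1, e2⟫_ℂ = 0) (n21 : ⟪e2, e1⟫_ℂ = 0)
    (m11 : ‖t1‖ = 1) (m22 : ‖t2‖ = 1)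
    (m12 : ⟪t1, t2⟫_ℂ = 0) (m21 : ⟪t2, t1⟫_ℂ = 0)
    (T1oo : T1 (rankOne ℂ o o) = rankOne ℂ e1 e1 + rankOne ℂ e2 e2)
    (T2oo : T2 (rankOne ℂ o o) = rankOne ℂ e1 e1)
    (T3oo : T3 (rankOne ℂ o o) = rankOne ℂ e1 e1)
    (T1o1 : T1 (rankOne ℂ o e1) = rankOne ℂ e1 t1 + rankOne ℂ e2 t2)
    (T2o1 : T2 (rankOne ℂ o e1) = rankOne ℂ e1 t2)
    (T2o2 : T2 (rankOne ℂ o e2) = rankOne ℂ e1 t1)
    (T3o1 : T3 (rankOne ℂ o e1) = rankOne ℂ e1 t2)
    (T3o2 : T3 (rankOne ℂ o e2) = - rankOne ℂ e1 t1)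
    (T12 : T1 (T2 (rankOne ℂ o o)) = rankOne ℂ t1 t1 + rankOne ℂ t2 t2)
    (T21 : T2 (T1 (rankOne ℂ o o)) = rankOne ℂ t1 t1 + rankOne ℂ t2 t2)
    (T13 : T1 (T3 (rankOne ℂ o o)) = rankOne ℂ t1 t1 + rankOne ℂ t2 t2)
    (T31 : T3 (T1 (rankOne ℂ o o)) = rankOne ℂ t1 t1 + rankOne ℂ t2 t2)
    (T23 : T2 (T3 (rankOne ℂ o o)) = rankOne ℂ t2 t2)
    (T32 : T3 (T2 (rankOne ℂ o o)) = rankOne ℂ t2 t2) : False := by
  have ho : ⟪o, o⟫_ℂ = 1 := by simp [no]
  have sT1 : star (rankOne ℂ e1 e1 + rankOne ℂ e2 e2) = rankOne ℂ e1 e1 + rankOne ℂ e2 e2 := by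
    rw [star_add, ContinuousLinearMap.star_eq_adjoint, ContinuousLinearMap.star_eq_adjoint]
    simp
  have sT2 : star (rankOne ℂ e1 e1) = rankOne ℂ e1 e1 := by
    rw [ContinuousLinearMap.star_eq_adjoint]
    simp
  -- exchange relations
  have R12b : ∀ x : H, θ1 (θ2 (k V B hB x o)) * θ2 (k V B hB e2 o) * k V B hB e1 o
      = θ2 (θ1 (k V B hB x o)) * θ1 (k V B hB e1 o) * k V B hB e1 o := by
    intro x
    apply exch d1 d2 c12 (e := t1) x ho
    · rw [T1oo]; simp [n22, n12]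
    · rw [T1oo, sT1]; simp [n22, n12]
    · rw [T2oo]; simp [n11]
    · rw [T2o2]; simp [n11, m11]
    · rw [T12]; simp [m11, m21]
    · rw [T2oo]; simp [n11]
    · rw [T2oo, sT2]; simp [n11]
    · rw [T1oo]; simp [n11, n21]
    · rw [T1o1]; simp [n11, m11, m21, n12]
    · rw [T21]; simp [m11, m21]
  have R12a : ∀ x : H, θ1 (θ2 (k V B hB x o)) * θ2 (k V B hB e1 o) * k V B hB e1 o
      = θ2 (θ1 (k V B hB x o)) * θ1 (k V B hB e1 o) * k V B hB e2 o := by
    intro x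
    apply exch d1 d2 c12 (e := t2) x ho
    · rw [T1oo]; simp [n11, n21]
    · rw [T1oo, sT1]; simp [n11, n21]
    · rw [T2oo]; simp [n11]
    · rw [T2o1]; simp [n11, m22]
    · rw [T12]; simp [m22, m12]
    · rw [T2oo]; simp [n11]
    · rw [T2oo, sT2]; simp [n11]
    · rw [T1oo]; simp [n22, n12]
    · rw [T1o1]; simp [n22, m22, m12, n21]
    · rw [T21]; simp [m22, m12]
  have R13a : ∀ x : H, θ1 (θ3 (k V B hB x o)) * θ3 (k V B hB e1 o) * k V B hB e1 o
      = θ3 (θ1 (k V B hB x o)) * θ1 (k V B hB e1 o) * k V B hB e2 o := by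
    intro x
    apply exch d1 d3 c13 (e := t2) x ho
    · rw [T1oo]; simp [n11, n21]
    · rw [T1oo, sT1]; simp [n11, n21]
    · rw [T3oo]; simp [n11]
    · rw [T3o1]; simp [n11, m22]
    · rw [T13]; simp [m22, m12]
    · rw [T3oo]; simp [n11]
    · rw [T3oo, sT2]; simp [n11]
    · rw [T1oo]; simp [n22, n12]
    · rw [T1o1]; simp [n22, m22, m12, n21]
    · rw [T31]; simp [m22, m12]
  have R13b : ∀ x : H, θ1 (θ3 (k V B hB x o)) * θ3 (k V B hB e2 o) * k V B hB e1 o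
      = θ3 (θ1 (k V B hB x o)) * θ1 (k V B hB e1 o) * k V B hB (-e1) o := by
    intro x
    apply exch d1 d3 c13 (e := -t1) x ho
    · rw [T1oo]; simp [n22, n12]
    · rw [T1oo, sT1]; simp [n22, n12]
    · rw [T3oo]; simp [n11]
    · rw [T3o2]; simp [n11, m11]
    · rw [T13]; simp [m11, m21]
    · rw [T3oo]; simp [n11]
    · rw [T3oo, sT2]; simp [n11]
    · rw [T1oo]; simp [n11, n21]
    · rw [T1o1]; simp [n11, m11, m21, n12]
    · rw [T31]; simp [m11, m21]
  have R23 : ∀ x : H, θ2 (θ3 (k V B hB x o)) * θ3 (k V B hB e1 o) * k V B hB e1 o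
      = θ3 (θ2 (k V B hB x o)) * θ2 (k V B hB e1 o) * k V B hB e1 o := by
    intro x
    apply exch d2 d3 c23 (e := t2) x ho
    · rw [T2oo]; simp [n11]
    · rw [T2oo, sT2]; simp [n11]
    · rw [T3oo]; simp [n11]
    · rw [T3o1]; simp [n11, m22]
    · rw [T23]; simp [m22]
    · rw [T3oo]; simp [n11]
    · rw [T3oo, sT2]; simp [n11]
    · rw [T2oo]; simp [n11]
    · rw [T2o1]; simp [n11, m22]
    · rw [T32]; simp [m22]
  have hneg : k V B hB (-e1) o = - k V B hB e1 o := by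
    apply Subtype.ext
    rw [NegMemClass.coe_neg, coe_k, coe_k]
    simp
  set X : B := θ1 (θ2 (θ3 (k V B hB o o))) * θ1 (θ2 (k V B hB e1 o)) * θ1 (k V B hB e1 o)
    * k V B hB e1 o with hX
  set S : B := θ1 (θ2 (θ3 (k V B hB o o))) * θ2 (θ3 (k V B hB e1 o)) * θ3 (k V B hB e1 o)
    * k V B hB e1 o with hS
  have pathB : S = X := by
    calc S = θ1 (θ2 (θ3 (k V B hB o o))) * (θ2 (θ3 (k V B hB e1 o)) * θ3 (k V B hB e1 o)
          * k V B hB e1 o) := by simp only [hS, mul_assoc]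
      _ = θ2 (θ1 (θ3 (k V B hB o o)) * θ3 (k V B hB e1 o) * k V B hB e1 o) * k V B hB e1 o := by
          rw [R23 e1]; simp only [map_mul, mul_assoc, c12, c13, c23]
      _ = θ2 (θ3 (θ1 (k V B hB o o))) * (θ1 (θ2 (k V B hB e1 o)) * θ2 (k V B hB e2 o)
          * k V B hB e1 o) := by
          rw [R13a o]; simp only [map_mul, mul_assoc, c12, c13, c23]
      _ = X := by
          rw [R12b e1, hX]; simp only [mul_assoc, c12, c13, c23]
  have pathA : S = -X := by
    calc S = θ3 (θ1 (θ2 (k V B hB o o)) * θ2 (k V B hB e1 o) * k V B hB e1 o)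
          * k V B hB e1 o := by simp only [hS, map_mul, mul_assoc, c12, c13, c23]
      _ = θ3 (θ2 (θ1 (k V B hB o o))) * (θ1 (θ3 (k V B hB e1 o)) * θ3 (k V B hB e2 o)
          * k V B hB e1 o) := by
          rw [R12a o]; simp only [map_mul, mul_assoc, c12, c13, c23]
      _ = θ1 (θ2 (θ3 (k V B hB o o)) * θ3 (k V B hB e1 o) * k V B hB e1 o)
          * k V B hB (-e1) o := by
          rw [R13b e1]; simp only [map_mul, mul_assoc, c12, c13, c23]
      _ = -X := by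
          rw [R23 o, hneg, mul_neg, hX]; simp only [map_mul, mul_assoc, c12, c13, c23]
  have hX0 : X = 0 := by
    have : X = -X := pathB.symm.trans pathA
    have h2 : (2 : ℂ) • X = 0 := by
      rw [two_smul]
      nth_rewrite 1 [this]
      simp
    simpa using h2
  have s1 : k V B hB o e1 * θ1 (k V B hB o o) * k V B hB e1 o = k V B hB o o := by
    rw [sandwich, d1.strong, cmp_k, T1oo]
    simp [n11, n21]
  have s2 : k V B hB o e1 * θ2 (k V B hB o o) * k V B hB e1 o = k V B hB o o := by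
    rw [sandwich, d2.strong, cmp_k, T2oo]
    simp [n11]
  have s3 : k V B hB o e1 * θ3 (k V B hB o o) * k V B hB e1 o = k V B hB o o := by
    rw [sandwich, d3.strong, cmp_k, T3oo]
    simp [n11]
  have hoo : k V B hB o o * k V B hB o o = k V B hB o o := by
    rw [k_mul, ho, one_smul]
  have hXX : star X * X = k V B hB o o := by
    calc star X * X = k V B hB o e1 * θ1 (k V B hB o e1 * θ2 (k V B hB o e1 *
          θ3 (k V B hB o o * k V B hB o o) * k V B hB e1 o) * k V B hB e1 o) * k V B hB e1 o := by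
          rw [hX]
          simp only [star_mul, ← map_star, star_k, map_mul, mul_assoc]
      _ = k V B hB o o := by
          rw [hoo, s3, s2, s1]
  rw [hX0, mul_zero] at hXX
  have h5 := congrArg (fun b : B => (b : K →L[ℂ] K)) hXX
  simp only [coe_k, ZeroMemClass.coe_zero] at h5
  have h6 := congrArg (fun b : K →L[ℂ] K => b (V o)) h5
  simp [no] at h6
  have h7 : ‖o‖ = 0 := by rw [← V.norm_map o, ← h6, norm_zero]
  rw [no] at h7
  exact one_ne_zero h7
end Key

/-! ### Kraus maps are completely positive, and normal in finite dimension -/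

section kraus
variable {H : Type*} [NormedAddCommGroup H] [InnerProductSpace ℂ H] [CompleteSpace H]

/-- the linear map `a ↦ ∑ r, M r * a * (M r)*` -/
noncomputable def krausL (M : Fin 4 → (H →L[ℂ] H)) : (H →L[ℂ] H) →ₗ[ℂ] (H →L[ℂ] H) where
  toFun a := ∑ r, M r * a * star (M r)
  map_add' a b := by
    rw [← Finset.sum_add_distrib]
    refine Finset.sum_congr rfl fun r _ => ?_
    rw [mul_add, add_mul]
  map_smul' c a := by
    rw [RingHom.id_apply, Finset.smul_sum]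
    refine Finset.sum_congr rfl fun r _ => ?_
    rw [mul_smul_comm, smul_mul_assoc]

lemma cstar_sum_apply {ι n : Type*} (s : Finset ι) (X : ι → CStarMatrix n n (H →L[ℂ] H)) (i j : n) :
    (∑ r ∈ s, X r) i j = ∑ r ∈ s, X r i j := by
  classical
  induction s using Finset.induction_on with
  | empty => simp
  | insert a s ha ih => rw [Finset.sum_insert ha, Finset.sum_insert ha, CStarMatrix.add_apply, ih]

/-- the completely positive map with Kraus operators `M r` -/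
noncomputable def kraus (M : Fin 4 → (H →L[ℂ] H)) :
    CompletelyPositiveMap (H →L[ℂ] H) (H →L[ℂ] H) where
  toLinearMap := krausL M
  map_cstarMatrix_nonneg' := by
    intro n N hN
    have key : N.map (krausL M) = ∑ r : Fin 4,
        (CStarMatrix.ofMatrix (Matrix.diagonal fun _ => M r)) * N
          * star (CStarMatrix.ofMatrix (Matrix.diagonal fun _ => M r)) := by
      ext1 i j
      rw [cstar_sum_apply, CStarMatrix.map_apply]
      change ∑ r, M r * N i j * star (M r) = _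
      refine Finset.sum_congr rfl fun r _ => ?_
      rw [CStarMatrix.mul_apply, Finset.sum_eq_single j, CStarMatrix.mul_apply,
        Finset.sum_eq_single i]
      · simp [CStarMatrix.star_apply, CStarMatrix.ofMatrix_apply]
      · intro b _ hb
        simp [CStarMatrix.ofMatrix_apply, Matrix.diagonal_apply_ne' _ hb]
      · simp
      · intro b _ hb
        rw [CStarMatrix.star_apply, CStarMatrix.ofMatrix_apply, Matrix.diagonal_apply_ne' _ hb]
        simp
      · simp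
    rw [key]
    exact Finset.sum_nonneg fun r _ => star_right_conjugate_nonneg hN _

lemma kraus_apply (M : Fin 4 → (H →L[ℂ] H)) (a : H →L[ℂ] H) :
    kraus M a = ∑ r, M r * a * star (M r) := rfl

end kraus

section normal
variable {H : Type*} [NormedAddCommGroup H] [InnerProductSpace ℂ H] [CompleteSpace H]
  [FiniteDimensional ℂ H]

lemma normal_of_cp (φ : CompletelyPositiveMap (H →L[ℂ] H) (H →L[ℂ] H)) : IsNormalMap φ := by
  intro D a hne hdir hlub
  have : ProperSpace (H →L[ℂ] H) := FiniteDimensional.proper ℂ _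
  have hmono : ∀ x y : H →L[ℂ] H, x ≤ y → φ x ≤ φ y := fun x y h => OrderHomClass.mono φ h
  have hcont : Continuous φ := (φ.toLinearMap).continuous_of_finiteDimensional
  constructor
  · rintro _ ⟨d, hd, rfl⟩
    exact hmono d a (hlub.1 hd)
  · intro c hc
    obtain ⟨d0, hd0⟩ := hne
    have : Nonempty D := ⟨⟨d0, hd0⟩⟩
    have hdd : IsDirectedOrder D := ⟨fun x y => by
      obtain ⟨z, hz, h1, h2⟩ := hdir x x.2 y y.2
      exact ⟨⟨z, hz⟩, h1, h2⟩⟩
    have hne' : (Filter.atTop : Filter D).NeBot := Filter.atTop_neBot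
    -- the net is eventually in a compact set
    have hK : IsCompact (Metric.closedBall (0 : H →L[ℂ] H) (‖d0‖ + ‖a - d0‖)) :=
      isCompact_closedBall _ _
    have hev : ∀ᶠ d : D in Filter.atTop,
        (d : H →L[ℂ] H) ∈ Metric.closedBall (0 : H →L[ℂ] H) (‖d0‖ + ‖a - d0‖) := by
      filter_upwards [Filter.eventually_ge_atTop (⟨d0, hd0⟩ : D)] with d hd
      rw [mem_closedBall_zero_iff]
      have h1 : d0 ≤ (d : H →L[ℂ] H) := hd
      have h2 : (d : H →L[ℂ] H) ≤ a := hlub.1 d.2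
      have h3 : ‖(d : H →L[ℂ] H) - d0‖ ≤ ‖a - d0‖ :=
        CStarAlgebra.norm_le_norm_of_nonneg_of_le (sub_nonneg.mpr h1) (sub_le_sub_right h2 d0)
      calc ‖(d : H →L[ℂ] H)‖ = ‖d0 + ((d : H →L[ℂ] H) - d0)‖ := by congr 1; abel
        _ ≤ ‖d0‖ + ‖(d : H →L[ℂ] H) - d0‖ := norm_add_le _ _
        _ ≤ ‖d0‖ + ‖a - d0‖ := by gcongr
    obtain ⟨b, -, hb⟩ := hK.exists_mapClusterPt_of_frequently hev.frequently
    have hb1 : ∀ d ∈ D, d ≤ b := by
      intro d hd
      have hcl : IsClosed {x : H →L[ℂ] H | d ≤ x} := isClosed_Ici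
      have := hcl.mem_of_mapClusterPt hb (by
        filter_upwards [Filter.eventually_ge_atTop (⟨d, hd⟩ : D)] with d' hd'
        exact hd')
      exact this
    have hb2 : b ≤ a := by
      have hcl : IsClosed {x : H →L[ℂ] H | x ≤ a} := isClosed_Iic
      exact hcl.mem_of_mapClusterPt hb (Filter.Eventually.of_forall fun d => hlub.1 d.2)
    have hba : b = a := le_antisymm hb2 (hlub.2 hb1)
    subst hba
    have hcl : IsClosed {x : H →L[ℂ] H | φ x ≤ c} := isClosed_Iic.preimage hcont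
    exact hcl.mem_of_mapClusterPt hb (Filter.Eventually.of_forall fun d =>
      hc ⟨d, d.2, rfl⟩)

end normal


/-! ### The three maps -/

/-- the Hilbert space `ℂ^6` -/
abbrev H6 := EuclideanSpace ℂ (Fin 6)

/-- standard basis vectors -/
noncomputable def e (i : Fin 6) : H6 := EuclideanSpace.single i (1 : ℂ)

/-- matrix units -/
noncomputable def E (i j : Fin 6) : H6 →L[ℂ] H6 := rankOne ℂ (e i) (e j)

lemma inner_e (i j : Fin 6) : ⟪e i, e j⟫_ℂ = if i = j then 1 else 0 := by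
  rw [e, e, EuclideanSpace.inner_single_left]
  simp [EuclideanSpace.single_apply]

lemma norm_e (i : Fin 6) : ‖e i‖ = 1 := by simp [e]

/-- matrix entries -/
noncomputable def c (i j : Fin 6) (a : H6 →L[ℂ] H6) : ℂ := ⟪e i, a (e j)⟫_ℂ

lemma c_add (i j : Fin 6) (a b : H6 →L[ℂ] H6) : c i j (a + b) = c i j a + c i j b := by
  simp [c, inner_add_right]

lemma c_sub (i j : Fin 6) (a b : H6 →L[ℂ] H6) : c i j (a - b) = c i j a - c i j b := by
  simp [c, inner_sub_right]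

lemma c_smul (i j : Fin 6) (z : ℂ) (a : H6 →L[ℂ] H6) : c i j (z • a) = z * c i j a := by
  simp [c, inner_smul_right]

lemma c_one (i j : Fin 6) : c i j 1 = if i = j then 1 else 0 := by
  simp [c, inner_e]

lemma c_E (i j p q : Fin 6) : c i j (E p q) = if i = p ∧ j = q then 1 else 0 := by
  simp only [c, E, rankOne_apply, inner_smul_right, inner_e]
  by_cases h1 : i = p <;> by_cases h2 : j = q <;> simp [h1, h2, eq_comm]

lemma E_mul_mul (i j p q : Fin 6) (a : H6 →L[ℂ] H6) : E i j * a * E p q = c j p a • E i q := by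
  ext1 x
  simp only [E, c, ContinuousLinearMap.mul_def, ContinuousLinearMap.comp_apply, rankOne_apply,
    map_smul, ContinuousLinearMap.smul_apply, inner_smul_right, smul_smul]
  rw [mul_comm]

lemma star_E (i j : Fin 6) : star (E i j) = E j i := by
  rw [E, E, ContinuousLinearMap.star_eq_adjoint]; simp

lemma adjoint_E (i j : Fin 6) : adjoint (E i j) = E j i := by
  rw [E, E]; simp

lemma sum_E : ∑ i, E i i = (1 : H6 →L[ℂ] H6) := by
  ext1 x
  rw [ContinuousLinearMap.sum_apply]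
  simp only [E, rankOne_apply, ContinuousLinearMap.one_apply]
  have := (EuclideanSpace.basisFun (Fin 6) ℂ).sum_repr' x
  simpa [e] using this

/-- Kraus operators of the three maps -/
noncomputable def M1 : Fin 4 → (H6 →L[ℂ] H6) :=
  ![E 1 0 + E 3 1, E 2 0 + E 4 1, E 0 5, E 5 5]
noncomputable def M2 : Fin 4 → (H6 →L[ℂ] H6) :=
  ![E 1 0 + E 4 1 + E 3 2, E 0 5, E 2 5, E 5 5]
noncomputable def M3 : Fin 4 → (H6 →L[ℂ] H6) :=
  ![E 1 0 + E 4 1 - E 3 2, E 0 5, E 2 5, E 5 5]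

noncomputable def t1 (a : H6 →L[ℂ] H6) : H6 →L[ℂ] H6 := ∑ r, M1 r * a * star (M1 r)
noncomputable def t2 (a : H6 →L[ℂ] H6) : H6 →L[ℂ] H6 := ∑ r, M2 r * a * star (M2 r)
noncomputable def t3 (a : H6 →L[ℂ] H6) : H6 →L[ℂ] H6 := ∑ r, M3 r * a * star (M3 r)

lemma t1_eq (a : H6 →L[ℂ] H6) : t1 a = c 0 0 a • (E 1 1 + E 2 2) + c 0 1 a • (E 1 3 + E 2 4)
    + c 1 0 a • (E 3 1 + E 4 2) + c 1 1 a • (E 3 3 + E 4 4) + c 5 5 a • (E 0 0 + E 5 5) := by
  simp only [t1, Fin.sum_univ_four, M1, ContinuousLinearMap.star_eq_adjoint, map_add, adjoint_E, mul_add, add_mul, E_mul_mul,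
    Matrix.cons_val_zero, Matrix.cons_val_one, Matrix.cons_val]
  module

lemma t2_eq (a : H6 →L[ℂ] H6) : t2 a = c 0 0 a • E 1 1 + c 0 1 a • E 1 4 + c 0 2 a • E 1 3
    + c 1 0 a • E 4 1 + c 1 1 a • E 4 4 + c 1 2 a • E 4 3
    + c 2 0 a • E 3 1 + c 2 1 a • E 3 4 + c 2 2 a • E 3 3
    + c 5 5 a • (E 0 0 + E 2 2 + E 5 5) := by
  simp only [t2, Fin.sum_univ_four, M2, ContinuousLinearMap.star_eq_adjoint, map_add, adjoint_E, mul_add, add_mul, E_mul_mul,
    Matrix.cons_val_zero, Matrix.cons_val_one, Matrix.cons_val]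
  module

lemma t3_eq (a : H6 →L[ℂ] H6) : t3 a = c 0 0 a • E 1 1 + c 0 1 a • E 1 4 - c 0 2 a • E 1 3
    + c 1 0 a • E 4 1 + c 1 1 a • E 4 4 - c 1 2 a • E 4 3
    - c 2 0 a • E 3 1 - c 2 1 a • E 3 4 + c 2 2 a • E 3 3
    + c 5 5 a • (E 0 0 + E 2 2 + E 5 5) := by
  simp only [t3, Fin.sum_univ_four, M3, ContinuousLinearMap.star_eq_adjoint, map_add, map_sub, adjoint_E, mul_add, add_mul, mul_sub, sub_mul,
    E_mul_mul, Matrix.cons_val_zero, Matrix.cons_val_one, Matrix.cons_val]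
  module

lemma t12 (a : H6 →L[ℂ] H6) : t1 (t2 a) = c 0 0 a • (E 3 3 + E 4 4)
    + c 5 5 a • (E 0 0 + E 1 1 + E 2 2 + E 5 5) := by
  rw [t1_eq, t2_eq]
  simp [c_add, c_smul, c_E]
  module

lemma t21 (a : H6 →L[ℂ] H6) : t2 (t1 a) = c 0 0 a • (E 3 3 + E 4 4)
    + c 5 5 a • (E 0 0 + E 1 1 + E 2 2 + E 5 5) := by
  rw [t1_eq, t2_eq]
  simp [c_add, c_smul, c_E]
  module

lemma t13 (a : H6 →L[ℂ] H6) : t1 (t3 a) = c 0 0 a • (E 3 3 + E 4 4)
    + c 5 5 a • (E 0 0 + E 1 1 + E 2 2 + E 5 5) := by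
  rw [t1_eq, t3_eq]
  simp [c_add, c_sub, c_smul, c_E]
  module

lemma t31 (a : H6 →L[ℂ] H6) : t3 (t1 a) = c 0 0 a • (E 3 3 + E 4 4)
    + c 5 5 a • (E 0 0 + E 1 1 + E 2 2 + E 5 5) := by
  rw [t1_eq, t3_eq]
  simp [c_add, c_smul, c_E]
  module

lemma t23 (a : H6 →L[ℂ] H6) : t2 (t3 a) = c 0 0 a • E 4 4
    + c 5 5 a • (E 0 0 + E 1 1 + E 2 2 + E 3 3 + E 5 5) := by
  rw [t2_eq, t3_eq]
  simp [c_add, c_sub, c_smul, c_E]
  module

lemma t32 (a : H6 →L[ℂ] H6) : t3 (t2 a) = c 0 0 a • E 4 4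
    + c 5 5 a • (E 0 0 + E 1 1 + E 2 2 + E 3 3 + E 5 5) := by
  rw [t2_eq, t3_eq]
  simp [c_add, c_sub, c_smul, c_E]
  module

lemma t1_one : t1 1 = 1 := by
  rw [t1_eq, ← sum_E]
  simp [c_add, c_E, Fin.sum_univ_six]
  module

lemma t2_one : t2 1 = 1 := by
  rw [t2_eq, ← sum_E]
  simp [c_add, c_E, Fin.sum_univ_six]
  module

lemma t3_one : t3 1 = 1 := by
  rw [t3_eq, ← sum_E]
  simp [c_add, c_E, Fin.sum_univ_six]
  module


/-- the three commuting completely positive maps -/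
noncomputable def TT : Fin 3 → CompletelyPositiveMap (H6 →L[ℂ] H6) (H6 →L[ℂ] H6) :=
  ![kraus M1, kraus M2, kraus M3]

lemma TT0 (a : H6 →L[ℂ] H6) : TT 0 a = t1 a := rfl
lemma TT1 (a : H6 →L[ℂ] H6) : TT 1 a = t2 a := rfl
lemma TT2 (a : H6 →L[ℂ] H6) : TT 2 a = t3 a := rfl

lemma rankOne_E (i j : Fin 6) : rankOne ℂ (e i) (e j) = E i j := rfl

section bundle

variable {K : Type u} [NormedAddCommGroup K] [InnerProductSpace ℂ K] [CompleteSpace K]

/-- the bundled endomorphism -/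
noncomputable def bundle (B : VonNeumannAlgebra K) (θ : (K →L[ℂ] K) → (K →L[ℂ] K))
    (h : IsStarEndo B θ) : B.toStarSubalgebra →⋆ₙₐ[ℂ] B.toStarSubalgebra where
  toFun b := ⟨θ b, h.mem b b.2⟩
  map_smul' z b := by
    apply Subtype.ext
    exact h.smul z b b.2
  map_zero' := by
    apply Subtype.ext
    have h0 := h.smul 0 (0 : K →L[ℂ] K) (zero_mem B.toStarSubalgebra)
    simpa using h0
  map_add' b c := by
    apply Subtype.ext
    exact h.add b b.2 c c.2
  map_mul' b c := by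
    apply Subtype.ext
    exact h.mul b b.2 c c.2
  map_star' b := by
    apply Subtype.ext
    exact h.star b b.2

lemma bundle_coe (B : VonNeumannAlgebra K) (θ : (K →L[ℂ] K) → (K →L[ℂ] K))
    (h : IsStarEndo B θ) (b : B.toStarSubalgebra) :
    ((bundle B θ h b : B.toStarSubalgebra) : K →L[ℂ] K) = θ b := rfl

end bundle

theorem no_dilation (K : Type u) [NormedAddCommGroup K] [InnerProductSpace ℂ K] [CompleteSpace K]
    (d : Dilation (semigroup fun i => TT i) K) : False := by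
  have hp1 : d.p = corner d.V 1 := (isExt_iff _ _ _).mp d.p_proj
  have hB : ∀ a : H6 →L[ℂ] H6, corner d.V a ∈ d.B.toStarSubalgebra := by
    intro a
    obtain ⟨b, hb, hx⟩ := (d.corner (corner d.V a)).mpr ⟨a, isExt_corner _ _⟩
    rw [hx]
    exact mul_mem (mul_mem d.p_mem hb) d.p_mem
  set s0 : Fin 3 → (Fin 3 → ℕ) := fun i => Pi.single i 1 with hs0
  set Θ : Fin 3 → (d.B.toStarSubalgebra →⋆ₙₐ[ℂ] d.B.toStarSubalgebra) :=
    fun i => bundle d.B (d.θ (s0 i)) (d.endo (s0 i)) with hΘ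
  have hdil : ∀ (i : Fin 3), Dil d.V d.B.toStarSubalgebra hB (Θ i) (TT i) := by
    intro i
    constructor
    · fin_cases i
      · exact t1_one
      · exact t2_one
      · exact t3_one
    · intro a x y
      have h := (isExt_iff _ _ _).mp (d.dilates (s0 i) a (corner d.V a) (isExt_corner _ _))
      have hs : semigroup (fun i => (TT i : (H6 →L[ℂ] H6) → (H6 →L[ℂ] H6))) (s0 i) a
          = TT i a := by
        fin_cases i <;> simp [semigroup, Pi.single_apply, hs0]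
      rw [hs, hp1] at h
      have h1 : ⟪d.V x, corner d.V (TT i a) (d.V y)⟫_ℂ = ⟪x, TT i a y⟫_ℂ := by
        rw [corner_apply, LinearIsometry.inner_map_map]
      rw [← h1, ← h]
      have hp : ∀ z : H6, corner d.V 1 (d.V z) = d.V z := by
        intro z; rw [corner_apply]; rfl
      rw [ContinuousLinearMap.mul_apply, ContinuousLinearMap.mul_apply, hp]
      have hsa : adjoint (corner d.V (1 : H6 →L[ℂ] H6)) = corner d.V 1 := by
        rw [← ContinuousLinearMap.star_eq_adjoint, star_corner, star_one]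
      symm
      calc ⟪d.V x, corner d.V (1 : H6 →L[ℂ] H6)
            (d.θ (s0 i) (corner d.V a) (d.V y))⟫_ℂ
          = ⟪adjoint (corner d.V (1 : H6 →L[ℂ] H6)) (d.V x),
            d.θ (s0 i) (corner d.V a) (d.V y)⟫_ℂ :=
            (adjoint_inner_left _ _ _).symm
        _ = _ := by rw [hsa, hp]; rfl
  have hcomm : ∀ (i j : Fin 3) (b : d.B.toStarSubalgebra),
      Θ i (Θ j b) = Θ j (Θ i b) := by
    intro i j b
    apply Subtype.ext
    change d.θ (s0 i) (d.θ (s0 j) b) = d.θ (s0 j) (d.θ (s0 i) b)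
    rw [← d.θ_add _ _ _ b.2, ← d.θ_add _ _ _ b.2]
    congr 1
    ext k
    rw [add_comm]
  have nn : ∀ i j : Fin 6, i ≠ j → ⟪e i, e j⟫_ℂ = 0 := by
    intro i j h; rw [inner_e, if_neg h]
  refine hexagon (hdil 0) (hdil 1) (hdil 2) (hcomm 0 1) (hcomm 0 2) (hcomm 1 2)
    (o := e 0) (e1 := e 1) (e2 := e 2) (t1 := e 3) (t2 := e 4)
    (norm_e _) (norm_e _) (norm_e _) (nn _ _ (by decide)) (nn _ _ (by decide))
    (norm_e _) (norm_e _) (nn _ _ (by decide)) (nn _ _ (by decide))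
    ?_ ?_ ?_ ?_ ?_ ?_ ?_ ?_ ?_ ?_ ?_ ?_ ?_ ?_ <;> simp only [rankOne_E, TT0, TT1, TT2]
  · rw [t1_eq]; simp [c_E]; module
  · rw [t2_eq]; simp [c_E]; module
  · rw [t3_eq]; simp [c_E]; module
  · rw [t1_eq]; simp [c_E]; module
  · rw [t2_eq]; simp [c_E]; module
  · rw [t2_eq]; simp [c_E]; module
  · rw [t3_eq]; simp [c_E]; module
  · rw [t3_eq]; simp [c_E]; module
  · rw [t12]; simp [c_E]; module
  · rw [t21]; simp [c_E]; module
  · rw [t13]; simp [c_E]; module
  · rw [t31]; simp [c_E]; module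
  · rw [t23]; simp [c_E]; module
  · rw [t32]; simp [c_E]; module

/-- the example -/
noncomputable def example6 : TripleWithoutDilation.{0, u} (EuclideanSpace ℂ (Fin 6)) where
  T := fun i => TT i
  cp := fun i => ⟨TT i, fun _ => rfl⟩
  normal := fun i => normal_of_cp (TT i)
  unital := by
    intro i
    fin_cases i
    · exact t1_one
    · exact t2_one
    · exact t3_one
  comm := by
    intro i j a
    fin_cases i <;> fin_cases j
    · rfl
    · change t1 (t2 a) = t2 (t1 a); rw [t12, t21]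
    · change t1 (t3 a) = t3 (t1 a); rw [t13, t31]
    · change t2 (t1 a) = t1 (t2 a); rw [t12, t21]
    · rfl
    · change t2 (t3 a) = t3 (t2 a); rw [t23, t32]
    · change t3 (t1 a) = t1 (t3 a); rw [t13, t31]
    · change t3 (t2 a) = t2 (t3 a); rw [t23, t32]
    · rfl
  no_dilation := by
    intro K _ _ _
    exact ⟨fun d => no_dilation K d⟩

/-- Sanity check: the definition of a dilation is not vacuous, the identity semigroup has one. -/
theorem dilation_id (H : Type u) [NormedAddCommGroup H] [InnerProductSpace ℂ H] [CompleteSpace H] :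
    Nonempty (Dilation (fun (_ : Fin 3 → ℕ) (a : H →L[ℂ] H) => a) H) := by
  have hc : ∀ a b : H →L[ℂ] H, IsExt (LinearIsometry.id : H →ₗᵢ[ℂ] H) a b ↔ b = a := by
    intro a b
    constructor
    · intro h
      ext x
      exact h.1 x
    · rintro rfl
      refine ⟨fun x => rfl, fun y hy => ?_⟩
      have : y = 0 := by
        have := hy y
        simpa using this
      rw [this, map_zero]
  refine ⟨{
    V := LinearIsometry.id
    B := ⟨⊤, ?_⟩
    p := 1
    θ := fun _ b => b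
    θ_zero := fun _ _ => rfl
    θ_add := fun _ _ _ _ => rfl
    endo := fun s => ⟨fun b h => h, fun _ _ _ _ => rfl, fun _ _ _ => rfl, fun _ _ _ _ => rfl,
      fun _ _ => rfl⟩
    p_proj := (hc _ _).mpr rfl
    p_mem := trivial
    corner := ?_
    dilates := ?_ }⟩
  · apply Set.eq_univ_of_forall
    intro x
    rw [Set.mem_centralizer_iff]
    intro m hm
    rw [Set.mem_centralizer_iff] at hm
    exact (hm x trivial).symm
  · intro b
    constructor
    · rintro ⟨c, -, -⟩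
      exact ⟨b, (hc _ _).mpr rfl⟩
    · rintro ⟨a, -⟩
      exact ⟨b, trivial, by simp⟩
  · intro s a b hb
    rw [hc] at hb ⊢
    simp [hb]

end Pool.Agent.MP_0a86e9_an
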